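import Mathlib

open Finset Polynomial

namespace Pool.Agent.Results.MP_d17fc5_co.HookBias

/-- Length of row `i` (rows are numbered from `0`) of the Young diagram of `p`:
the `i`-th largest part, `0` if there is no such part. -/
def row {n : ℕ} (p : n.Partition) (i : ℕ) : ℕ := (p.parts.sort (· ≥ ·)).getD i 0

/-- Length of column `j` (columns are numbered from `0`) of the Young diagram of `p`:
the number of parts larger than `j`. -/
def col {n : ℕ} (p : n.Partition) (j : ℕ) : ℕ := Multiset.card (p.parts.filter (fun x => j < x))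

/-- Hook length of the cell in row `i`, column `j` (both numbered from `0`). With
`i = i' - 1`, `j = j' - 1` this is `λ_{i'} + λ'_{j'} - i' - j' + 1`. -/
def hook {n : ℕ} (p : n.Partition) (i j : ℕ) : ℤ := (row p i : ℤ) + (col p j : ℤ) - i - j - 1

/-- Number of cells of the Young diagram of `p` of hook length `2`
(a cell is a pair `(i, j)` with `j < row p i`; all cells have `i, j < n`). -/
def hooks2 {n : ℕ} (p : n.Partition) : ℕ :=
  #{c ∈ range n ×ˢ range n | c.2 < row p c.1 ∧ hook p c.1 c.2 = 2}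

/-- Number of partitions of `n` into odd parts, all at most `2L-1`, with exactly `m` cells of
hook length `2`. -/
def a2 (L m n : ℕ) : ℕ :=
  #{p : n.Partition | ((∀ x ∈ p.parts, Odd x) ∧ ∀ x ∈ p.parts, x ≤ 2 * L - 1) ∧ hooks2 p = m}

/-- Number of partitions of `n` into distinct parts, all at most `L`, with exactly `m` cells of
hook length `2`. -/
def b2 (L m n : ℕ) : ℕ :=
  #{p : n.Partition | (p.parts.Nodup ∧ ∀ x ∈ p.parts, x ≤ L) ∧ hooks2 p = m}

/-- `A_L(n)` -/
noncomputable def A (L n : ℕ) : ℕ := ∑ᶠ m : ℕ, m.choose 2 * a2 L m n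

/-- `B_L(n)` -/
noncomputable def B (L n : ℕ) : ℕ := ∑ᶠ m : ℕ, m.choose 2 * b2 L m n

/-! ### hooks of length two -/

lemma lt_getD_iff (l : List ℕ) (hl : l.Pairwise (· ≥ ·)) (i j : ℕ) :
    j < l.getD i 0 ↔ i < (l.filter (fun x => j < x)).length := by
  induction l generalizing i with
  | nil => simp
  | cons a t ih =>
    rw [List.pairwise_cons] at hl
    by_cases h : j < a
    · rw [List.filter_cons_of_pos (by simpa using h)]
      cases i with
      | zero => simpa using h
      | succ k =>
        simp only [List.getD_cons_succ, List.length_cons, Nat.add_lt_add_iff_right]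
        exact ih hl.2 k
    · have h0 : (a :: t).filter (fun x => decide (j < x)) = [] := by
        rw [List.filter_eq_nil_iff]
        intro x hx
        simp only [List.mem_cons] at hx
        rcases hx with rfl | hx
        · simpa using h
        · have := hl.1 x hx
          simp; omega
      rw [h0]
      simp only [List.length_nil, Nat.not_lt_zero, iff_false, not_lt]
      cases i with
      | zero => simpa using h
      | succ k =>
        simp only [List.getD_cons_succ]
        by_cases hk : k < t.length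
        · rw [List.getD_eq_getElem _ _ hk]
          have := hl.1 _ (List.getElem_mem hk)
          omega
        · rw [List.getD_eq_default _ _ (by omega)]
          omega

lemma lt_row_iff {n : ℕ} (p : n.Partition) (i j : ℕ) : j < row p i ↔ i < col p j := by
  unfold row col
  rw [lt_getD_iff _ (Multiset.pairwise_sort _ _)]
  have : (p.parts.filter (fun x => j < x)) =
      (((p.parts.sort (· ≥ ·)).filter (fun x => decide (j < x)) : List ℕ) : Multiset ℕ) := by
    conv_lhs => rw [← Multiset.sort_eq p.parts (· ≥ ·)]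
    rw [Multiset.filter_coe]
  rw [this, Multiset.coe_card]

lemma col_succ {n : ℕ} (p : n.Partition) (j : ℕ) :
    col p j = col p (j + 1) + p.parts.count (j + 1) := by
  unfold col
  rw [← Multiset.card_replicate (p.parts.count (j+1)) (j+1), ← Multiset.filter_eq',
    ← Multiset.card_add, Multiset.filter_add_filter]
  have h2 : p.parts.filter (fun x => j + 1 < x ∧ x = j + 1) = 0 := by
    rw [Multiset.filter_eq_nil]
    intro a _; omega
  rw [h2, add_zero]
  congr 1
  apply Multiset.filter_congr
  intro x _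
  omega

lemma col_le {n : ℕ} (p : n.Partition) (j : ℕ) : col p j ≤ n := by
  unfold col
  refine (Multiset.card_le_card (Multiset.filter_le _ _)).trans ?_
  have h := Multiset.card_nsmul_le_sum (s := p.parts) (a := 1) (fun x hx => p.parts_pos hx)
  simpa [p.parts_sum] using h

/-- marks of the first kind -/
def M1 {n : ℕ} (p : n.Partition) : Finset ℕ := {j ∈ range n | j + 2 ∈ p.parts ∧ j + 1 ∉ p.parts}

/-- marks of the second kind -/
def M2 {n : ℕ} (p : n.Partition) : Finset ℕ := {j ∈ range n | 2 ≤ p.parts.count (j + 1)}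

lemma hooks2_eq {n : ℕ} (p : n.Partition) : hooks2 p = #(M1 p) + #(M2 p) := by
  classical
  unfold hooks2
  have hset : {c ∈ range n ×ˢ range n | c.2 < row p c.1 ∧ hook p c.1 c.2 = 2} =
      (M1 p).image (fun j => (col p j - 1, j)) ∪ (M2 p).image (fun j => (col p j - 2, j)) := by
    ext ⟨i, j⟩
    rw [mem_filter, mem_product, mem_union, mem_image, mem_image]
    simp only [mem_filter, mem_range, Prod.mk.injEq, M1, M2]
    simp only [hook]
    have h0 := col_succ p j
    have h1 : col p (j + 1) = col p (j + 2) + p.parts.count (j + 2) := col_succ p (j + 1)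
    have e0 := lt_row_iff p i j
    have e1 := lt_row_iff p i (j + 1)
    have e2 := lt_row_iff p i (j + 2)
    have hle := col_le p j
    have m1 : j + 1 ∈ p.parts ↔ 1 ≤ p.parts.count (j + 1) := by
      rw [Multiset.one_le_count_iff_mem]
    have m2 : j + 2 ∈ p.parts ↔ 1 ≤ p.parts.count (j + 2) := by
      rw [Multiset.one_le_count_iff_mem]
    have hjn : j < row p i → j < n := by
      intro h
      have h3 := e0.1 h
      have : 0 < col p j := by omega
      unfold col at this
      rw [Multiset.card_pos_iff_exists_mem] at this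
      obtain ⟨x, hx⟩ := this
      rw [Multiset.mem_filter] at hx
      have := p.le_of_mem_parts hx.1
      omega
    constructor
    · rintro ⟨⟨hi, hj⟩, hc, hh⟩
      have hr : row p i = j + 1 ∨ row p i = j + 2 := by
        have := e0.1 hc
        omega
      rcases hr with hr | hr
      · right
        refine ⟨j, ⟨hj, ?_⟩, ?_, rfl⟩ <;> omega
      · left
        refine ⟨j, ⟨hj, m2.2 ?_, fun h => ?_⟩, ?_, rfl⟩
        · omega
        · have := m1.1 h
          omega
        · omega
    · rintro (⟨j', ⟨hj, ha, hb⟩, hi, rfl⟩ | ⟨j', ⟨hj, ha⟩, hi, rfl⟩)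
      · have ha' := m2.1 ha
        have hb' : p.parts.count (j' + 1) = 0 := by
          rw [Multiset.count_eq_zero]; exact hb
        have : ¬ (j' + 2 < row p i) := by rw [e2]; omega
        have : j' + 1 < row p i := by rw [e1]; omega
        refine ⟨⟨?_, hj⟩, ?_, ?_⟩ <;> omega
      · have : ¬ (j' + 1 < row p i) := by rw [e1]; omega
        have : j' < row p i := by rw [e0]; omega
        refine ⟨⟨?_, hj⟩, ?_, ?_⟩ <;> omega
  rw [hset, card_union_of_disjoint, card_image_of_injOn, card_image_of_injOn]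
  · intro a _ b _ h
    simpa using (Prod.ext_iff.1 h).2
  · intro a _ b _ h
    simpa using (Prod.ext_iff.1 h).2
  · rw [Finset.disjoint_left]
    intro c hc hd
    simp only [mem_image, M1, M2, mem_filter, mem_range] at hc hd
    obtain ⟨j, ⟨_, _, hb⟩, rfl⟩ := hc
    obtain ⟨j', ⟨_, hb'⟩, he⟩ := hd
    have : j' = j := (Prod.ext_iff.1 he).2
    subst this
    apply hb
    rw [← Multiset.one_le_count_iff_mem]
    omega

/-! ### generating polynomials of the distinct side -/

/-- number of elements `s ≥ 2` with `s - 1` missing -/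
def hS (S : Finset ℕ) : ℕ := #{s ∈ S | 2 ≤ s ∧ s - 1 ∉ S}

/-- binomial moments -/
noncomputable def M (k L : ℕ) : ℤ[X] :=
  ∑ S ∈ (Icc 1 L).powerset, ((hS S).choose k : ℤ[X]) * X ^ (∑ i ∈ S, i)

lemma hS_insert (L : ℕ) (S : Finset ℕ) (hSL : S ⊆ Icc 1 (L + 1)) :
    hS (insert (L + 2) S) = hS S + if L + 1 ∈ S then 0 else 1 := by
  unfold hS
  rw [filter_insert]
  have hlt : ∀ s ∈ S, s < L + 2 := by
    intro s hs
    have := mem_Icc.1 (hSL hs)
    omega
  have h1 : S.filter (fun s => 2 ≤ s ∧ s - 1 ∉ insert (L + 2) S) =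
      S.filter (fun s => 2 ≤ s ∧ s - 1 ∉ S) := by
    apply filter_congr
    intro s hs
    have := hlt s hs
    have h2 : s - 1 ≠ L + 2 := by omega
    simp [mem_insert, h2]
  rw [h1]
  have hn : L + 2 ∉ S := fun h => by have := hlt _ h; omega
  by_cases h : L + 1 ∈ S
  · rw [if_neg (by simp [h]), if_pos h, add_zero]
  · rw [if_pos (by simp [h]), if_neg h, card_insert_of_notMem (by simp [hn])]

lemma Icc_succ (L : ℕ) : Icc 1 (L + 1) = insert (L + 1) (Icc 1 L) := by
  ext x; simp only [mem_Icc, mem_insert]; omega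

lemma M_rec (k L : ℕ) :
    M (k + 1) (L + 2) = (1 + X ^ (L + 2)) * M (k + 1) (L + 1) + X ^ (L + 2) * M k L := by
  have h1 : L + 2 ∉ Icc 1 (L + 1) := by simp
  have h2 : L + 1 ∉ Icc 1 L := by simp
  have e1 : M (k + 1) (L + 2) = M (k + 1) (L + 1) + ∑ S ∈ (Icc 1 (L + 1)).powerset,
      ((hS (insert (L + 2) S)).choose (k + 1) : ℤ[X]) * X ^ (∑ i ∈ insert (L + 2) S, i) := by
    rw [M, Icc_succ (L + 1), sum_powerset_insert h1]
    rfl
  have e2 : ∀ S ∈ (Icc 1 (L + 1)).powerset,
      ((hS (insert (L + 2) S)).choose (k + 1) : ℤ[X]) * X ^ (∑ i ∈ insert (L + 2) S, i) =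
      X ^ (L + 2) * (((hS S).choose (k + 1) : ℤ[X]) * X ^ (∑ i ∈ S, i)) +
      X ^ (L + 2) * (if L + 1 ∈ S then 0 else ((hS S).choose k : ℤ[X]) * X ^ (∑ i ∈ S, i)) := by
    intro S hS'
    rw [mem_powerset] at hS'
    have hn : L + 2 ∉ S := fun h => h1 (hS' h)
    rw [hS_insert L S hS', sum_insert hn]
    split_ifs with h
    · rw [pow_add]; ring_nf
    · rw [Nat.choose_succ_succ, pow_add]
      push_cast
      ring
  have e3 : ∑ S ∈ (Icc 1 (L + 1)).powerset,
      (if L + 1 ∈ S then 0 else ((hS S).choose k : ℤ[X]) * X ^ (∑ i ∈ S, i)) = M k L := by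
    rw [Icc_succ L, sum_powerset_insert h2]
    have a1 : ∑ S ∈ (Icc 1 L).powerset,
        (if L + 1 ∈ insert (L + 1) S then (0 : ℤ[X]) else
          ((hS (insert (L + 1) S)).choose k : ℤ[X]) * X ^ (∑ i ∈ insert (L + 1) S, i)) = 0 := by
      apply sum_eq_zero
      intro S _
      rw [if_pos (mem_insert_self _ _)]
    rw [a1, add_zero, M]
    apply sum_congr rfl
    intro S hS'
    rw [mem_powerset] at hS'
    rw [if_neg (fun h => h2 (hS' h))]
  rw [e1, sum_congr rfl e2, sum_add_distrib, ← mul_sum, ← mul_sum, e3, M]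
  ring

noncomputable def D (L : ℕ) : ℤ[X] := ∏ i ∈ Icc 1 L, (1 + X ^ i)

lemma D_succ (L : ℕ) : D (L + 1) = (1 + X ^ (L + 1)) * D L := by
  rw [D, Icc_succ, prod_insert (by simp), D]

lemma M_zero (L : ℕ) : M 0 L = D L := by
  unfold M D
  rw [prod_one_add]
  apply sum_congr rfl
  intro S _
  rw [Nat.choose_zero_right, Nat.cast_one, one_mul, prod_pow_eq_pow_sum]

noncomputable def E (m : ℕ) : ℤ[X] := ∑ i ∈ range m, X ^ (2 * i)

noncomputable def F (m : ℕ) : ℤ[X] := ∑ j ∈ range m, X ^ (2 * j) * E (j + 1)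

lemma E_succ (m : ℕ) : E (m + 1) = E m + X ^ (2 * m) := by
  rw [E, sum_range_succ, E]

lemma F_succ (m : ℕ) : F (m + 1) = F m + X ^ (2 * m) * E (m + 1) := by
  rw [F, sum_range_succ, F]

lemma E_geom (m : ℕ) : (1 - X ^ 2) * E m = 1 - X ^ (2 * m) := by
  induction m with
  | zero => simp [E]
  | succ m ih => rw [E_succ, mul_add, ih, mul_add 2, pow_add]; ring

lemma F_closed (m : ℕ) : (1 + X ^ 2) * F m = E m * E (m + 1) := by
  induction m with
  | zero => simp [E, F]
  | succ m ih =>
    rw [F_succ, mul_add, ih, E_succ (m + 1), E_succ m, mul_add 2, pow_add]; ring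

lemma M_one (L : ℕ) : M 1 (L + 2) = X ^ 2 * E (L + 1) * D L := by
  have h0 : M 1 0 = 0 := by simp [M, hS]
  have h1 : M 1 1 = 0 := by
    rw [M, Icc_succ 0, sum_powerset_insert (by simp)]
    simp [hS]
  induction L with
  | zero =>
    rw [M_rec 0 0, h1, M_zero]
    simp [E, D]
  | succ L ih =>
    rw [M_rec 0 (L + 1), ih, M_zero, D_succ L, E_succ (L + 1)]
    have hg := E_geom (L + 1)
    have e1 : (X : ℤ[X]) ^ (2 * (L + 1)) = (X ^ (L + 1)) ^ 2 := by rw [← pow_mul]; ring_nf
    have e2 : (X : ℤ[X]) ^ (L + 1 + 2) = X ^ (L + 1) * X ^ 2 := pow_add _ _ _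
    rw [e1] at hg ⊢
    rw [e2]
    linear_combination (-(X ^ 2) * X ^ (L + 1) * D L) * hg

lemma M_two (L : ℕ) : M 2 (L + 4) = X ^ 6 * F (L + 1) * D L := by
  have h0 : M 1 0 = 0 := by simp [M, hS]
  have h1 : M 1 1 = 0 := by
    rw [M, Icc_succ 0, sum_powerset_insert (by simp)]
    simp [hS]
  have h2 : M 2 1 = 0 := by
    rw [M, Icc_succ 0, sum_powerset_insert (by simp)]
    simp [hS, Finset.filter_singleton]
  induction L with
  | zero =>
    rw [M_rec 1 2, M_rec 1 1, M_rec 1 0, h0, h1, h2, M_one 0]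
    simp [E, D, F]
    ring_nf
  | succ L ih =>
    rw [M_rec 1 (L + 3), ih, M_one (L + 1), D_succ L, F_succ (L + 1)]
    have hg := E_geom (L + 1)
    have hf := F_closed (L + 1)
    have e1 : (X : ℤ[X]) ^ (2 * (L + 1)) = (X ^ (L + 1)) ^ 2 := by rw [← pow_mul]; ring_nf
    have e2 : (X : ℤ[X]) ^ (L + 3 + 2) = X ^ (L + 1) * X ^ 4 := by rw [← pow_add]
    rw [e1] at hg ⊢
    rw [e2]
    linear_combination (-(X ^ 6) * X ^ (L + 1) * D L * (1 - X ^ 2)) * hf
      + (-(X ^ 6) * X ^ (L + 1) * D L * E (L + 2)) * hg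

/-! ### splitting a distinct part into equal odd parts -/

/-- each `s = 2^a * o` (`o` odd) is replaced by `2^a` copies of `o` -/
def split (S : Finset ℕ) : Multiset ℕ :=
  ∑ s ∈ S, Multiset.replicate (2 ^ s.factorization 2) (s / 2 ^ s.factorization 2)

lemma split_sum (S : Finset ℕ) : (split S).sum = ∑ s ∈ S, s := by
  unfold split
  rw [Multiset.sum_sum]
  apply sum_congr rfl
  intro s _
  rw [Multiset.sum_replicate, smul_eq_mul]
  exact Nat.ordProj_mul_ordCompl_eq_self s 2

lemma mem_split {S : Finset ℕ} {x : ℕ} (h : x ∈ split S) :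
    ∃ s ∈ S, x = s / 2 ^ s.factorization 2 := by
  unfold split at h
  rw [Multiset.mem_sum] at h
  obtain ⟨s, hs, hx⟩ := h
  exact ⟨s, hs, Multiset.eq_of_mem_replicate hx⟩

lemma count_split (S : Finset ℕ) (o : ℕ) : (split S).count o =
    ∑ s ∈ S with s / 2 ^ s.factorization 2 = o, 2 ^ s.factorization 2 := by
  unfold split
  rw [Multiset.count_sum', sum_filter]
  apply sum_congr rfl
  intro s _
  rw [Multiset.count_replicate]

lemma split_sub {S T : Finset ℕ} (h : split S = split T) : S ⊆ T := by
  intro s0 hs0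
  set o := s0 / 2 ^ s0.factorization 2 with ho
  have key : ∀ U : Finset ℕ, ∑ b ∈ (U.filter (fun s => s / 2 ^ s.factorization 2 = o)).image
      (fun s => s.factorization 2), 2 ^ b = (split U).count o := by
    intro U
    rw [count_split, sum_image]
    intro a ha b hb hab
    simp only [coe_filter, Set.mem_ofPred_eq] at ha hb hab
    rw [← Nat.ordProj_mul_ordCompl_eq_self a 2, ← Nat.ordProj_mul_ordCompl_eq_self b 2, ha.2,
      hb.2, hab]
  have h1 := key S
  rw [h, ← key T] at h1
  have h2 := Finset.geomSum_injective (n := 2) le_rfl h1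
  have h3 : s0.factorization 2 ∈ (S.filter (fun s => s / 2 ^ s.factorization 2 = o)).image
      (fun s => s.factorization 2) := mem_image_of_mem _ (by simp [hs0, ho])
  rw [h2, mem_image] at h3
  obtain ⟨t, ht, hv⟩ := h3
  rw [mem_filter] at ht
  have : s0 = t := by
    rw [← Nat.ordProj_mul_ordCompl_eq_self s0 2, ← Nat.ordProj_mul_ordCompl_eq_self t 2, ht.2,
      hv]
  rw [this]
  exact ht.1

/-! ### the odd side -/

/-- pairs `i ≤ j < K` -/
def P (K : ℕ) : Finset (ℕ × ℕ) := {c ∈ range K ×ˢ range K | c.1 ≤ c.2}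

lemma marks_le {n : ℕ} (p : n.Partition) (hp : ∀ x ∈ p.parts, Odd x) (K : ℕ) :
    #{c ∈ P K | ({3 + 2 * c.1, 3 + 2 * c.2} : Multiset ℕ) ≤ p.parts} ≤ (hooks2 p).choose 2 := by
  classical
  set Sz : Finset ℕ := {i ∈ range n | 3 + 2 * i ∈ p.parts} with hSz
  set Mu : Finset ℕ := {i ∈ range n | 2 ≤ p.parts.count (3 + 2 * i)} with hMu
  have c1 : #Sz ≤ #(M1 p) := by
    apply card_le_card_of_injOn (fun i => 2 * i + 1)
    · intro i hi
      simp only [hSz, coe_filter, mem_range, Set.mem_ofPred_eq] at hi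
      simp only [M1, coe_filter, mem_range, Set.mem_ofPred_eq]
      have h1 := p.le_of_mem_parts hi.2
      refine ⟨by omega, ?_, fun h => ?_⟩
      · rw [show 2 * i + 1 + 2 = 3 + 2 * i by ring]; exact hi.2
      · obtain ⟨k, hk⟩ := hp _ h
        omega
    · intro a _ b _ h
      simp only at h
      omega
  have c2 : #Mu ≤ #(M2 p) := by
    apply card_le_card_of_injOn (fun i => 2 * i + 2)
    · intro i hi
      simp only [hMu, coe_filter, mem_range, Set.mem_ofPred_eq] at hi
      simp only [M2, coe_filter, mem_range, Set.mem_ofPred_eq]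
      have hm : 3 + 2 * i ∈ p.parts := by
        rw [← Multiset.one_le_count_iff_mem]; omega
      have h1 := p.le_of_mem_parts hm
      refine ⟨by omega, ?_⟩
      rw [show 2 * i + 2 + 1 = 3 + 2 * i by ring]; exact hi.2
    · intro a _ b _ h
      simp only at h
      omega
  have c3 : #(Sz.disjSum Mu) ≤ hooks2 p := by
    rw [card_disjSum, hooks2_eq]; omega
  refine le_trans ?_ (Nat.choose_le_choose 2 c3)
  rw [← card_powersetCard]
  apply card_le_card_of_injOn
    (fun c : ℕ × ℕ => if c.1 < c.2 then ({Sum.inl c.1, Sum.inl c.2} : Finset (ℕ ⊕ ℕ))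
      else {Sum.inl c.1, Sum.inr c.1})
  · rintro ⟨i, j⟩ hc
    rw [mem_coe, mem_filter, P, mem_filter, mem_product, mem_range, mem_range] at hc
    obtain ⟨⟨_, hij⟩, hle⟩ := hc
    simp only at hij hle
    have hi : 3 + 2 * i ∈ p.parts := Multiset.mem_of_le hle (by simp)
    have hj : 3 + 2 * j ∈ p.parts := Multiset.mem_of_le hle (by simp)
    have hi1 := p.le_of_mem_parts hi
    have hj1 := p.le_of_mem_parts hj
    have hiS : i ∈ Sz := by
      simp only [hSz, mem_filter, mem_range]; exact ⟨by omega, hi⟩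
    have hjS : j ∈ Sz := by
      simp only [hSz, mem_filter, mem_range]; exact ⟨by omega, hj⟩
    rw [mem_coe, mem_powersetCard]
    by_cases h : i < j
    · simp only [h, if_true]
      refine ⟨?_, card_pair (by simp; omega)⟩
      intro x hx
      simp only [mem_insert, mem_singleton] at hx
      rcases hx with rfl | rfl
      · rw [inl_mem_disjSum]; exact hiS
      · rw [inl_mem_disjSum]; exact hjS
    · simp only [h, if_false]
      refine ⟨?_, card_pair (by simp)⟩
      have hij' : i = j := by omega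
      subst hij'
      have hcount : 2 ≤ p.parts.count (3 + 2 * i) := by
        have := Multiset.le_iff_count.1 hle (3 + 2 * i)
        simpa using this
      intro x hx
      simp only [mem_insert, mem_singleton] at hx
      rcases hx with rfl | rfl
      · rw [inl_mem_disjSum]; exact hiS
      · rw [inr_mem_disjSum]
        simp only [hMu, mem_filter, mem_range]
        exact ⟨by omega, hcount⟩
  · rintro ⟨i, j⟩ hc ⟨i', j'⟩ hc' h
    rw [mem_coe, mem_filter, P, mem_filter] at hc hc'
    have hij := hc.1.2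
    have hij' := hc'.1.2
    simp only at hij hij' h
    by_cases h1 : i < j
    · by_cases h2 : i' < j'
      · simp only [h1, h2, if_true] at h
        have a1 := Finset.ext_iff.1 h (Sum.inl i)
        have a2 := Finset.ext_iff.1 h (Sum.inl j)
        simp only [mem_insert, mem_singleton, Sum.inl.injEq, true_or, or_true, true_iff] at a1 a2
        rw [Prod.mk.injEq]
        omega
      · simp only [h1, h2, if_true, if_false] at h
        have a1 := Finset.ext_iff.1 h (Sum.inr i')
        simp at a1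
    · by_cases h2 : i' < j'
      · simp only [h1, h2, if_true, if_false] at h
        have a1 := Finset.ext_iff.1 h (Sum.inr i)
        simp at a1
      · simp only [h1, h2, if_false] at h
        have a1 := Finset.ext_iff.1 h (Sum.inr i)
        simp only [mem_insert, mem_singleton, reduceCtorEq, Sum.inr.injEq, false_or,
          true_iff] at a1
        rw [Prod.mk.injEq]
        omega

/-- partitions of `n` into odd parts, at most `2L-1` -/
def OddB (L n : ℕ) : Finset n.Partition :=
  {p : n.Partition | (∀ x ∈ p.parts, Odd x) ∧ ∀ x ∈ p.parts, x ≤ 2 * L - 1}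

/-- partitions of `n` into distinct parts, at most `L` -/
def DistB (L n : ℕ) : Finset n.Partition :=
  {p : n.Partition | p.parts.Nodup ∧ ∀ x ∈ p.parts, x ≤ L}

lemma pair_count (l n : ℕ) (c : ℕ × ℕ) (hc : c ∈ P (l + 1)) :
    #{S ∈ (Icc 1 l).powerset | 6 + 2 * c.1 + 2 * c.2 + ∑ i ∈ S, i = n} ≤
    #{p ∈ OddB (l + 4) n | ({3 + 2 * c.1, 3 + 2 * c.2} : Multiset ℕ) ≤ p.parts} := by
  classical
  obtain ⟨i, j⟩ := c
  rw [P, mem_filter, mem_product, mem_range, mem_range] at hc
  obtain ⟨⟨hi, hj⟩, hij⟩ := hc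
  simp only at hi hj hij
  let f : Finset ℕ → n.Partition := fun S =>
    if h : (∀ s ∈ S, 0 < s) ∧ 6 + 2 * i + 2 * j + ∑ x ∈ S, x = n then
      { parts := split S + {3 + 2 * i, 3 + 2 * j}
        parts_pos := by
          intro x hx
          rw [Multiset.mem_add] at hx
          rcases hx with hx | hx
          · obtain ⟨s, hs, rfl⟩ := mem_split hx
            exact Nat.ordCompl_pos 2 (h.1 s hs).ne'
          · simp only [Multiset.insert_eq_cons, Multiset.mem_cons, Multiset.mem_singleton] at hx
            omega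
        parts_sum := by
          rw [Multiset.sum_add, split_sum]
          simp only [Multiset.insert_eq_cons, Multiset.sum_cons, Multiset.sum_singleton]
          omega }
    else default
  have hf : ∀ S ∈ ({S ∈ (Icc 1 l).powerset | 6 + 2 * i + 2 * j + ∑ i ∈ S, i = n} :
      Finset (Finset ℕ)), (f S).parts = split S + {3 + 2 * i, 3 + 2 * j} := by
    intro S hS
    rw [mem_filter, mem_powerset] at hS
    have h : (∀ s ∈ S, 0 < s) ∧ 6 + 2 * i + 2 * j + ∑ x ∈ S, x = n := by
      refine ⟨fun s hs => ?_, hS.2⟩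
      have := mem_Icc.1 (hS.1 hs)
      omega
    simp only [f, dif_pos h]
  apply card_le_card_of_injOn f
  · intro S hS
    have hS1 := hf S hS
    rw [mem_coe, mem_filter, mem_powerset] at hS
    rw [mem_coe, mem_filter, OddB, mem_filter, hS1]
    refine ⟨⟨mem_univ _, ?_, ?_⟩, ?_⟩
    · intro x hx
      rw [Multiset.mem_add] at hx
      rcases hx with hx | hx
      · obtain ⟨s, hs, rfl⟩ := mem_split hx
        have h0 := mem_Icc.1 (hS.1 hs)
        have := Nat.not_dvd_ordCompl (n := s) Nat.prime_two (by omega)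
        rw [← Nat.not_even_iff_odd]
        intro he
        exact this (even_iff_two_dvd.1 he)
      · simp only [Multiset.insert_eq_cons, Multiset.mem_cons, Multiset.mem_singleton] at hx
        rcases hx with rfl | rfl
        · exact ⟨i + 1, by ring⟩
        · exact ⟨j + 1, by ring⟩
    · intro x hx
      rw [Multiset.mem_add] at hx
      rcases hx with hx | hx
      · obtain ⟨s, hs, rfl⟩ := mem_split hx
        have h0 := mem_Icc.1 (hS.1 hs)
        have := Nat.ordCompl_le s 2
        omega
      · simp only [Multiset.insert_eq_cons, Multiset.mem_cons, Multiset.mem_singleton] at hx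
        omega
    · exact Multiset.le_add_left _ _
  · intro S hS T hT h
    have h1 : (f S).parts = (f T).parts := by rw [h]
    rw [hf S hS, hf T hT] at h1
    have h2 := add_right_cancel h1
    exact Subset.antisymm (split_sub h2) (split_sub h2.symm)

/-! ### assembly -/

lemma finsum_choose (n : ℕ) (Q : n.Partition → Prop) [DecidablePred Q] :
    ∑ᶠ m : ℕ, m.choose 2 * #{p : n.Partition | Q p ∧ hooks2 p = m} =
      ∑ p ∈ (univ : Finset n.Partition).filter Q, (hooks2 p).choose 2 := by
  have hb : ∀ p : n.Partition, hooks2 p ∈ range (n * n + 1) := by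
    intro p
    rw [mem_range, Nat.lt_succ_iff]
    unfold hooks2
    refine (card_filter_le _ _).trans ?_
    rw [card_product, card_range]
  rw [finsum_eq_sum_of_support_subset (s := range (n * n + 1))]
  · rw [← sum_fiberwise_of_maps_to (s := (univ : Finset n.Partition).filter Q)
      (t := range (n * n + 1)) (g := hooks2) (fun p _ => hb p)]
    apply sum_congr rfl
    intro m _
    rw [← filter_filter]
    rw [sum_congr rfl (g := fun _ => m.choose 2)]
    · rw [sum_const, smul_eq_mul, mul_comm]
    · intro p hp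
      rw [(mem_filter.1 hp).2]
  · intro m hm
    rw [Function.mem_support] at hm
    have h1 : #{p : n.Partition | Q p ∧ hooks2 p = m} ≠ 0 := fun h => hm (by rw [h, mul_zero])
    rw [card_ne_zero] at h1
    obtain ⟨p, hp⟩ := h1
    rw [mem_filter] at hp
    rw [← hp.2.2]
    exact hb p

lemma A_eq (L n : ℕ) : A L n = ∑ p ∈ OddB L n, (hooks2 p).choose 2 :=
  finsum_choose n _

lemma B_eq (L n : ℕ) : B L n = ∑ p ∈ DistB L n, (hooks2 p).choose 2 :=
  finsum_choose n _

lemma hooks2_dist {n : ℕ} (p : n.Partition) (hp : p.parts.Nodup) :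
    hooks2 p = hS p.parts.toFinset := by
  have h2 : M2 p = ∅ := by
    rw [M2, filter_eq_empty_iff]
    intro j _ h
    have := Multiset.nodup_iff_count_le_one.1 hp (j + 1)
    omega
  rw [hooks2_eq, h2, card_empty, add_zero]
  unfold M1 hS
  apply card_nbij' (fun j => j + 2) (fun s => s - 2)
  · intro j hj
    simp only [coe_filter, mem_range, Set.mem_ofPred_eq, Multiset.mem_toFinset] at hj ⊢
    exact ⟨hj.2.1, by omega, hj.2.2⟩
  · intro s hs
    simp only [coe_filter, mem_range, Set.mem_ofPred_eq, Multiset.mem_toFinset] at hs ⊢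
    have h1 := p.le_of_mem_parts hs.1
    refine ⟨by omega, ?_, ?_⟩
    · rw [show s - 2 + 2 = s by omega]; exact hs.1
    · rw [show s - 2 + 1 = s - 1 by omega]; exact hs.2.2
  · intro j _
    simp
  · intro s hs
    simp only [coe_filter, Set.mem_ofPred_eq] at hs
    simp only
    omega

lemma B_eq_M (L n : ℕ) : (B L n : ℤ) = (M 2 L).coeff n := by
  classical
  have h1 : B L n = ∑ S ∈ (Icc 1 L).powerset with ∑ i ∈ S, i = n, (hS S).choose 2 := by
    rw [B_eq]
    refine sum_bij (fun p _ => p.parts.toFinset) ?_ ?_ ?_ ?_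
    · intro p hp
      rw [DistB, mem_filter] at hp
      rw [mem_filter, mem_powerset]
      refine ⟨?_, ?_⟩
      · intro x hx
        rw [Multiset.mem_toFinset] at hx
        rw [mem_Icc]
        exact ⟨p.parts_pos hx, hp.2.2 x hx⟩
      · rw [Finset.sum, Multiset.toFinset_val, Multiset.dedup_eq_self.2 hp.2.1]
        simpa using p.parts_sum
    · intro p hp q hq h
      rw [DistB, mem_filter] at hp hq
      apply Nat.Partition.ext
      have := congrArg Finset.val h
      rwa [Multiset.toFinset_val, Multiset.toFinset_val, Multiset.dedup_eq_self.2 hp.2.1,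
        Multiset.dedup_eq_self.2 hq.2.1] at this
    · intro S hS'
      rw [mem_filter, mem_powerset] at hS'
      refine ⟨⟨S.val, ?_, ?_⟩, ?_, ?_⟩
      · intro i hi
        exact (mem_Icc.1 (hS'.1 hi)).1
      · rw [← hS'.2, Finset.sum_val]; rfl
      · rw [DistB, mem_filter]
        exact ⟨mem_univ _, S.nodup, fun x hx => (mem_Icc.1 (hS'.1 hx)).2⟩
      · exact S.val_toFinset
    · intro p hp
      rw [DistB, mem_filter] at hp
      rw [hooks2_dist p hp.2.1]
  rw [h1, M, finsetSum_coeff, sum_filter]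
  push_cast
  apply sum_congr rfl
  intro S _
  rw [← C_eq_natCast, coeff_C_mul, coeff_X_pow]
  by_cases h : ∑ i ∈ S, i = n
  · simp [h]
  · rw [if_neg h, if_neg (fun h' => h h'.symm), mul_zero]

lemma F_eq (K : ℕ) : F K = ∑ c ∈ P K, X ^ (2 * c.1 + 2 * c.2) := by
  rw [P, sum_filter, sum_product_right, F]
  apply sum_congr rfl
  intro j hj
  rw [mem_range] at hj
  rw [← sum_filter]
  have h1 : (range K).filter (fun i => i ≤ j) = range (j + 1) := by
    ext i; simp only [mem_filter, mem_range]; omega
  rw [h1, E, mul_sum]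
  apply sum_congr rfl
  intro i _
  rw [← pow_add, add_comm]

lemma B_count (l n : ℕ) : B (l + 4) n =
    ∑ c ∈ P (l + 1), #{S ∈ (Icc 1 l).powerset | 6 + 2 * c.1 + 2 * c.2 + ∑ i ∈ S, i = n} := by
  have h : (B (l + 4) n : ℤ) = ((∑ c ∈ P (l + 1),
      #{S ∈ (Icc 1 l).powerset | 6 + 2 * c.1 + 2 * c.2 + ∑ i ∈ S, i = n} : ℕ) : ℤ) := by
    rw [B_eq_M, M_two, F_eq, ← M_zero, mul_sum, sum_mul, finsetSum_coeff, M]
    push_cast
    apply sum_congr rfl
    intro c _
    rw [mul_sum, finsetSum_coeff, card_filter]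
    push_cast
    apply sum_congr rfl
    intro S _
    rw [Nat.choose_zero_right, Nat.cast_one, one_mul, ← pow_add, ← pow_add, coeff_X_pow]
    have : n = 6 + (2 * c.1 + 2 * c.2) + ∑ i ∈ S, i ↔
        6 + 2 * c.1 + 2 * c.2 + ∑ i ∈ S, i = n := by omega
    simp only [this]
  exact_mod_cast h

lemma B_small (L n : ℕ) (hL : L < 4) : B L n = 0 := by
  have h0 : M 1 0 = 0 := by simp [M, hS]
  have h1 : M 1 1 = 0 := by
    rw [M, Icc_succ 0, sum_powerset_insert (by simp)]
    simp [hS]
  have h20 : M 2 0 = 0 := by simp [M, hS]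
  have h2 : M 2 1 = 0 := by
    rw [M, Icc_succ 0, sum_powerset_insert (by simp)]
    simp [hS, Finset.filter_singleton]
  have h22 : M 2 2 = 0 := by rw [M_rec 1 0, h2, h0]; simp
  have h23 : M 2 3 = 0 := by rw [M_rec 1 1, h22, h1]; simp
  have h : (B L n : ℤ) = 0 := by
    rw [B_eq_M]
    interval_cases L
    · rw [h20]; simp
    · rw [h2]; simp
    · rw [h22]; simp
    · rw [h23]; simp
  exact_mod_cast h

/-- **Q1 of MP_d17fc5_co.** For every positive integer `L` and every `n ≥ 0`,
`A_L(n) ≥ B_L(n)`. -/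
theorem result : ∀ L : ℕ, 1 ≤ L → ∀ n : ℕ, B L n ≤ A L n := by
  intro L _ n
  rcases Nat.lt_or_ge L 4 with hL | hL
  · rw [B_small L n hL]; exact Nat.zero_le _
  · obtain ⟨l, rfl⟩ := Nat.exists_eq_add_of_le' hL
    rw [B_count, A_eq]
    calc ∑ c ∈ P (l + 1), #{S ∈ (Icc 1 l).powerset | 6 + 2 * c.1 + 2 * c.2 + ∑ i ∈ S, i = n}
        ≤ ∑ c ∈ P (l + 1),
          #{p ∈ OddB (l + 4) n | ({3 + 2 * c.1, 3 + 2 * c.2} : Multiset ℕ) ≤ p.parts} :=
          sum_le_sum (fun c hc => pair_count l n c hc)
      _ = ∑ p ∈ OddB (l + 4) n,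
          #{c ∈ P (l + 1) | ({3 + 2 * c.1, 3 + 2 * c.2} : Multiset ℕ) ≤ p.parts} := by
          simp only [card_filter]
          rw [sum_comm]
      _ ≤ ∑ p ∈ OddB (l + 4) n, (hooks2 p).choose 2 := by
          apply sum_le_sum
          intro p hp
          rw [OddB, mem_filter] at hp
          exact marks_le p hp.2.1 (l + 1)

end Pool.Agent.Results.MP_d17fc5_co.HookBias
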